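import Mathlib

namespace Pool.Agent.Results.MP_64a46a_co.Yes

/-- Vertices of the hexagonal lattice (two colour classes, each indexed by `ℤ × ℤ`). -/
abbrev V := Bool × ℤ × ℤ

/-- Adjacency of the hexagonal lattice: `(false, q, r)` is joined to `(true, q, r)`,
`(true, q - 1, r)` and `(true, q, r - 1)`. -/
def Adj0 (u v : V) : Prop :=
  u.1 = false ∧ v.1 = true ∧
    (v.2 = u.2 ∨ v.2 = (u.2.1 - 1, u.2.2) ∨ v.2 = (u.2.1, u.2.2 - 1))

def Adj (u v : V) : Prop := Adj0 u v ∨ Adj0 v u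

/-- The edges of the closed polygon through the listed vertices. -/
def cycEdges (C : List V) : List (Sym2 V) := (C.zip (C.rotate 1)).map fun p => s(p.1, p.2)

/-- `C` lists the vertices of a cycle of the hexagonal lattice in cyclic order. -/
def IsCycle (C : List V) : Prop :=
  3 ≤ C.length ∧ C.Nodup ∧ ∀ p ∈ C.zip (C.rotate 1), Adj p.1 p.2

/-- The six vertices, in cyclic order, of the lattice hexagon (face) with index `c`. -/
def hexVerts (c : ℤ × ℤ) : List V :=
  [(false, c.1, c.2), (true, c.1 - 1, c.2), (false, c.1 - 1, c.2), (true, c.1 - 1, c.2 - 1),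
    (false, c.1, c.2 - 1), (true, c.1, c.2 - 1)]

def hexEdges (c : ℤ × ℤ) : List (Sym2 V) := cycEdges (hexVerts c)

/-- Passing from a hexagon to another one through a common edge that is not on `C`. -/
def Step (C : List V) (c d : ℤ × ℤ) : Prop :=
  ∃ e ∈ hexEdges c, e ∈ hexEdges d ∧ e ∉ cycEdges C

/-- A hexagon lies inside `C` if only finitely many hexagons can be reached from it without
crossing `C`. -/
def Inside (C : List V) (c : ℤ × ℤ) : Prop := {d | Relation.ReflTransGen (Step C) c d}.Finite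

/-- Vertices of the benzenoid system bounded by `C`. -/
def BVert (C : List V) (v : V) : Prop := v ∈ C ∨ ∃ c, Inside C c ∧ v ∈ hexVerts c

/-- Edges of the benzenoid system bounded by `C`. -/
def BEdge (C : List V) (e : Sym2 V) : Prop := e ∈ cycEdges C ∨ ∃ c, Inside C c ∧ e ∈ hexEdges c

/-- Perfect matchings (Kekule structures) of the benzenoid system bounded by `C`. -/
def IsPM (C : List V) (M : Set (Sym2 V)) : Prop :=
  (∀ e ∈ M, BEdge C e) ∧ ∀ v, BVert C v → ∃! e, e ∈ M ∧ v ∈ e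

def C0 : List V := [
  (false, -1, 0), (true, -1, 0), (false, 0, 0), (true, 0, 0), (false, 0, 1), (true, 0, 1), 
  (false, 0, 2), (true, 0, 2), (false, 1, 2), (true, 1, 1), (false, 2, 1), (true, 2, 0), 
  (false, 2, 0), (true, 1, 0), (false, 1, 0), (true, 1, -1), (false, 2, -1), (true, 2, -1), 
  (false, 3, -1), (true, 3, -2), (false, 3, -2), (true, 3, -3), (false, 3, -3), 
  (true, 2, -3), (false, 2, -2), (true, 1, -2), (false, 1, -1), (true, 0, -1), 
  (false, 0, -1), (true, -1, -1)]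

def H0 : List (ℤ × ℤ) := [(0, 0), (1, 0), (2, -1), (3, -2), (3, -1), (1, 1), (1, 2), (2, 1)]

def EB : List (Sym2 V) := H0.flatMap hexEdges

def VB : List V := H0.flatMap hexVerts

def M0 : List (Sym2 V) := [
  s((false, -1, 0), (true, -1, 0)), s((false, 0, -1), (true, -1, -1)), 
  s((false, 0, 0), (true, 0, -1)), s((false, 0, 1), (true, 0, 0)), 
  s((false, 0, 2), (true, 0, 2)), s((false, 1, -1), (true, 1, -2)), 
  s((false, 1, 0), (true, 1, -1)), s((false, 1, 1), (true, 0, 1)), 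
  s((false, 1, 2), (true, 1, 1)), s((false, 2, -2), (true, 2, -2)), 
  s((false, 2, -1), (true, 2, -1)), s((false, 2, 0), (true, 1, 0)), 
  s((false, 2, 1), (true, 2, 0)), s((false, 3, -3), (true, 2, -3)), 
  s((false, 3, -2), (true, 3, -3)), s((false, 3, -1), (true, 3, -2))]

def L6 : List (Sym2 V) := [
  s((false, 0, 0), (true, -1, 0)), s((false, -1, 0), (true, -1, 0)), 
  s((false, -1, 0), (true, -1, -1)), s((false, 0, -1), (true, -1, -1)), 
  s((false, 0, -1), (true, 0, -1)), s((false, 0, 0), (true, 0, -1))]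

def nb (c : ℤ × ℤ) : List (ℤ × ℤ) :=
  [c, (c.1 + 1, c.2), (c.1, c.2 + 1), (c.1 - 1, c.2 + 1), (c.1 - 1, c.2), (c.1, c.2 - 1),
    (c.1 + 1, c.2 - 1)]

lemma share (c d : ℤ × ℤ) (e : Sym2 V) (h1 : e ∈ hexEdges c) (h2 : e ∈ hexEdges d) :
    d ∈ nb c := by
  obtain ⟨q, r⟩ := c
  obtain ⟨q', r'⟩ := d
  simp [hexEdges, cycEdges, hexVerts] at h1 h2
  simp only [nb, List.mem_cons, Prod.mk.injEq, List.not_mem_nil, or_false]
  rcases h1 with rfl | rfl | rfl | rfl | rfl | rfl <;> simp at h2 <;> omega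

lemma closed : ∀ c ∈ H0, ∀ d ∈ nb c, ∀ e ∈ hexEdges c, e ∈ hexEdges d → e ∉ cycEdges C0 →
    d ∈ H0 := by decide +kernel

lemma inside_of (c : ℤ × ℤ) (hc : c ∈ H0) : Inside C0 c := by
  refine (H0.finite_toSet).subset fun d hd => ?_
  induction hd with
  | refl => exact hc
  | tail _ h ih =>
    obtain ⟨e, h1, h2, h3⟩ := h
    exact closed _ ih _ (share _ _ e h1 h2) e h1 h2 h3

def qb (e : Sym2 V) (d d' : ℤ × ℤ) : Bool :=
  decide (e ∈ hexEdges d → e ∈ hexEdges d' → d ∈ H0 ∨ d' ∈ H0 ∨ d = d')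

lemma bd0 : ∀ e ∈ cycEdges C0, ∃ c ∈ H0, e ∈ hexEdges c ∧
    ∀ d ∈ nb c, ∀ d' ∈ nb c, qb e d d' = true := by
  decide +kernel

lemma bd : ∀ e ∈ cycEdges C0, ∃ c ∈ H0, e ∈ hexEdges c ∧
    ∀ d ∈ nb c, ∀ d' ∈ nb c, e ∈ hexEdges d → e ∈ hexEdges d' → d ∈ H0 ∨ d' ∈ H0 ∨ d = d' := by
  intro e he
  obtain ⟨c, hc, h1, h2⟩ := bd0 e he
  exact ⟨c, hc, h1, fun d hd d' hd' => of_decide_eq_true (h2 d hd d' hd')⟩

lemma memH (a b : ℤ) : (a, b) ∈ H0 ↔ (a = 0 ∧ b = 0) ∨ (a = 1 ∧ b = 0) ∨ (a = 2 ∧ b = -1) ∨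
    (a = 3 ∧ b = -2) ∨ (a = 3 ∧ b = -1) ∨ (a = 1 ∧ b = 1) ∨ (a = 1 ∧ b = 2) ∨
    (a = 2 ∧ b = 1) := by
  simp [H0]

lemma stepR (q r : ℤ) (h1 : (q, r) ∉ H0) (h2 : (q + 1, r) ∉ H0) :
    Step C0 (q, r) (q + 1, r) ∧ Step C0 (q + 1, r) (q, r) := by
  have e1 : s(((true, q, r - 1) : V), (false, q, r)) ∈ hexEdges (q, r) := by
    simp [hexEdges, cycEdges, hexVerts]
  have e2 : s(((true, q, r - 1) : V), (false, q, r)) ∈ hexEdges (q + 1, r) := by
    simp [hexEdges, cycEdges, hexVerts]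
  have e3 : s(((true, q, r - 1) : V), (false, q, r)) ∉ cycEdges C0 := by
    intro h
    obtain ⟨c, -, hc, h'⟩ := bd _ h
    rcases h' _ (share _ _ _ hc e1) _ (share _ _ _ hc e2) e1 e2 with h | h | h
    · exact h1 h
    · exact h2 h
    · simp at h
  exact ⟨⟨_, e1, e2, e3⟩, ⟨_, e2, e1, e3⟩⟩

lemma of_inside (c : ℤ × ℤ) (h : Inside C0 c) : c ∈ H0 := by
  by_contra hc
  obtain ⟨q, r⟩ := c
  have key : (∀ k : ℕ, (q + k, r) ∉ H0) ∨ (∀ k : ℕ, (q - k, r) ∉ H0) := by
    rw [memH] at hc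
    by_cases h2 : q + r ≥ 2 ∧ q ≥ 1
    · left; intro k hk; rw [memH] at hk; omega
    · right; intro k hk; rw [memH] at hk; omega
  refine absurd h ?_
  rcases key with key | key
  · refine Set.infinite_of_injective_forall_mem (f := fun k : ℕ => (q + k, r)) ?_ ?_
    · intro a b hab; simpa using hab
    · intro k
      induction k with
      | zero => simp only [Nat.cast_zero, add_zero]; exact Relation.ReflTransGen.refl
      | succ k ih =>
        have h3 := key (k + 1)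
        push_cast at h3 ⊢
        rw [← add_assoc] at h3 ⊢
        exact ih.tail (stepR _ _ (key k) h3).1
  · refine Set.infinite_of_injective_forall_mem (f := fun k : ℕ => (q - k, r)) ?_ ?_
    · intro a b hab; simpa using hab
    · intro k
      induction k with
      | zero => simp only [Nat.cast_zero, sub_zero]; exact Relation.ReflTransGen.refl
      | succ k ih =>
        have h3 := key (k + 1)
        have h4 : q - (k : ℤ) = q - ((k + 1 : ℕ) : ℤ) + 1 := by push_cast; ring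
        have h5 := (stepR _ _ h3 (h4 ▸ key k)).2
        rw [← h4] at h5
        exact ih.tail h5

lemma bedge (e : Sym2 V) : BEdge C0 e ↔ e ∈ EB := by
  constructor
  · rintro (h | ⟨c, hc, h⟩)
    · obtain ⟨c, hc, h, -⟩ := bd e h
      exact List.mem_flatMap.2 ⟨c, hc, h⟩
    · exact List.mem_flatMap.2 ⟨c, of_inside c hc, h⟩
  · intro h
    obtain ⟨c, hc, h⟩ := List.mem_flatMap.1 h
    exact Or.inr ⟨c, inside_of c hc, h⟩

lemma bvert (v : V) : BVert C0 v ↔ v ∈ VB := by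
  constructor
  · rintro (h | ⟨c, hc, h⟩)
    · exact (by decide +kernel : ∀ v ∈ C0, v ∈ VB) v h
    · exact List.mem_flatMap.2 ⟨c, of_inside c hc, h⟩
  · intro h
    obtain ⟨c, hc, h⟩ := List.mem_flatMap.1 h
    exact Or.inr ⟨c, inside_of c hc, h⟩

open Classical in
noncomputable def x (M : Set (Sym2 V)) (e : Sym2 V) : ℕ := if e ∈ M then 1 else 0

lemma deg3 (M : Set (Sym2 V)) (hM : IsPM C0 M) (v : V) (a b c : Sym2 V)
    (h : v ∈ VB ∧ v ∈ a ∧ v ∈ b ∧ v ∈ c ∧ a ≠ b ∧ a ≠ c ∧ b ≠ c ∧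
      ∀ e ∈ EB, v ∈ e → e = a ∨ e = b ∨ e = c) : x M a + x M b + x M c = 1 := by
  obtain ⟨h0, ha, hb, hc, hab, hac, hbc, h⟩ := h
  obtain ⟨e, ⟨he, hv⟩, hu⟩ := hM.2 v ((bvert v).2 h0)
  have k : ∀ f, v ∈ f → f ≠ e → f ∉ M := fun f hf hne hm => hne (hu f ⟨hm, hf⟩)
  rcases h e ((bedge e).1 (hM.1 e he)) hv with rfl | rfl | rfl
  · simp [x, he, k b hb hab.symm, k c hc hac.symm]
  · simp [x, he, k a ha hab, k c hc hbc.symm]
  · simp [x, he, k a ha hac, k b hb hbc]

lemma deg2 (M : Set (Sym2 V)) (hM : IsPM C0 M) (v : V) (a b : Sym2 V)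
    (h : v ∈ VB ∧ v ∈ a ∧ v ∈ b ∧ a ≠ b ∧ ∀ e ∈ EB, v ∈ e → e = a ∨ e = b) :
    x M a + x M b = 1 := by
  obtain ⟨h0, ha, hb, hab, h⟩ := h
  obtain ⟨e, ⟨he, hv⟩, hu⟩ := hM.2 v ((bvert v).2 h0)
  have k : ∀ f, v ∈ f → f ≠ e → f ∉ M := fun f hf hne hm => hne (hu f ⟨hm, hf⟩)
  rcases h e ((bedge e).1 (hM.1 e he)) hv with rfl | rfl
  · simp [x, he, k b hb hab.symm]
  · simp [x, he, k a ha hab]

lemma sum6 (M : Set (Sym2 V)) (hM : IsPM C0 M) : (L6.map (x M)).sum = 3 := by
  have h0 := deg2 M hM (false, -1, 0) s((false, -1, 0), (true, -1, -1)) s((false, -1, 0), (true, -1, 0)) (by decide +kernel)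
  have h1 := deg2 M hM (false, 0, -1) s((false, 0, -1), (true, -1, -1)) s((false, 0, -1), (true, 0, -1)) (by decide +kernel)
  have h2 := deg3 M hM (false, 0, 0) s((false, 0, 0), (true, -1, 0)) s((false, 0, 0), (true, 0, -1))
    s((false, 0, 0), (true, 0, 0)) (by decide +kernel)
  have h3 := deg2 M hM (false, 0, 1) s((false, 0, 1), (true, 0, 0)) s((false, 0, 1), (true, 0, 1)) (by decide +kernel)
  have h4 := deg2 M hM (false, 0, 2) s((false, 0, 2), (true, 0, 1)) s((false, 0, 2), (true, 0, 2)) (by decide +kernel)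
  have h5 := deg3 M hM (false, 1, -1) s((false, 1, -1), (true, 0, -1)) s((false, 1, -1), (true, 1, -2))
    s((false, 1, -1), (true, 1, -1)) (by decide +kernel)
  have h6 := deg3 M hM (false, 1, 0) s((false, 1, 0), (true, 0, 0)) s((false, 1, 0), (true, 1, -1))
    s((false, 1, 0), (true, 1, 0)) (by decide +kernel)
  have h7 := deg3 M hM (false, 1, 1) s((false, 1, 1), (true, 0, 1)) s((false, 1, 1), (true, 1, 0))
    s((false, 1, 1), (true, 1, 1)) (by decide +kernel)
  have h8 := deg2 M hM (false, 1, 2) s((false, 1, 2), (true, 0, 2)) s((false, 1, 2), (true, 1, 1)) (by decide +kernel)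
  have h9 := deg3 M hM (false, 2, -2) s((false, 2, -2), (true, 1, -2)) s((false, 2, -2), (true, 2, -3))
    s((false, 2, -2), (true, 2, -2)) (by decide +kernel)
  have h10 := deg3 M hM (false, 2, -1) s((false, 2, -1), (true, 1, -1)) s((false, 2, -1), (true, 2, -2))
    s((false, 2, -1), (true, 2, -1)) (by decide +kernel)
  have h11 := deg2 M hM (false, 2, 0) s((false, 2, 0), (true, 1, 0)) s((false, 2, 0), (true, 2, 0)) (by decide +kernel)
  have h12 := deg2 M hM (false, 2, 1) s((false, 2, 1), (true, 1, 1)) s((false, 2, 1), (true, 2, 0)) (by decide +kernel)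
  have h13 := deg2 M hM (false, 3, -3) s((false, 3, -3), (true, 2, -3)) s((false, 3, -3), (true, 3, -3)) (by decide +kernel)
  have h14 := deg3 M hM (false, 3, -2) s((false, 3, -2), (true, 2, -2)) s((false, 3, -2), (true, 3, -3))
    s((false, 3, -2), (true, 3, -2)) (by decide +kernel)
  have h15 := deg2 M hM (false, 3, -1) s((false, 3, -1), (true, 2, -1)) s((false, 3, -1), (true, 3, -2)) (by decide +kernel)
  have h16 := deg2 M hM (true, -1, -1) s((false, -1, 0), (true, -1, -1)) s((false, 0, -1), (true, -1, -1)) (by decide +kernel)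
  have h17 := deg2 M hM (true, -1, 0) s((false, -1, 0), (true, -1, 0)) s((false, 0, 0), (true, -1, 0)) (by decide +kernel)
  have h18 := deg3 M hM (true, 0, -1) s((false, 0, -1), (true, 0, -1)) s((false, 0, 0), (true, 0, -1))
    s((false, 1, -1), (true, 0, -1)) (by decide +kernel)
  have h19 := deg3 M hM (true, 0, 0) s((false, 0, 0), (true, 0, 0)) s((false, 0, 1), (true, 0, 0))
    s((false, 1, 0), (true, 0, 0)) (by decide +kernel)
  have h20 := deg3 M hM (true, 0, 1) s((false, 0, 1), (true, 0, 1)) s((false, 0, 2), (true, 0, 1))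
    s((false, 1, 1), (true, 0, 1)) (by decide +kernel)
  have h21 := deg2 M hM (true, 0, 2) s((false, 0, 2), (true, 0, 2)) s((false, 1, 2), (true, 0, 2)) (by decide +kernel)
  have h22 := deg2 M hM (true, 1, -2) s((false, 1, -1), (true, 1, -2)) s((false, 2, -2), (true, 1, -2)) (by decide +kernel)
  have h23 := deg3 M hM (true, 1, -1) s((false, 1, -1), (true, 1, -1)) s((false, 1, 0), (true, 1, -1))
    s((false, 2, -1), (true, 1, -1)) (by decide +kernel)
  have h24 := deg3 M hM (true, 1, 0) s((false, 1, 0), (true, 1, 0)) s((false, 1, 1), (true, 1, 0))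
    s((false, 2, 0), (true, 1, 0)) (by decide +kernel)
  have h25 := deg3 M hM (true, 1, 1) s((false, 1, 1), (true, 1, 1)) s((false, 1, 2), (true, 1, 1))
    s((false, 2, 1), (true, 1, 1)) (by decide +kernel)
  have h26 := deg2 M hM (true, 2, -3) s((false, 2, -2), (true, 2, -3)) s((false, 3, -3), (true, 2, -3)) (by decide +kernel)
  have h27 := deg3 M hM (true, 2, -2) s((false, 2, -2), (true, 2, -2)) s((false, 2, -1), (true, 2, -2))
    s((false, 3, -2), (true, 2, -2)) (by decide +kernel)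
  have h28 := deg2 M hM (true, 2, -1) s((false, 2, -1), (true, 2, -1)) s((false, 3, -1), (true, 2, -1)) (by decide +kernel)
  have h29 := deg2 M hM (true, 2, 0) s((false, 2, 0), (true, 2, 0)) s((false, 2, 1), (true, 2, 0)) (by decide +kernel)
  have h30 := deg2 M hM (true, 3, -3) s((false, 3, -3), (true, 3, -3)) s((false, 3, -2), (true, 3, -3)) (by decide +kernel)
  have h31 := deg2 M hM (true, 3, -2) s((false, 3, -2), (true, 3, -2)) s((false, 3, -1), (true, 3, -2)) (by decide +kernel)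
  simp only [L6, List.map_cons, List.map_nil, List.sum_cons, List.sum_nil]
  omega

lemma card_eq (M : Set (Sym2 V)) (L : List (Sym2 V)) (hL : L.Nodup) :
    {e | e ∈ M ∧ e ∈ L}.ncard = (L.map (x M)).sum := by
  classical
  have : {e | e ∈ M ∧ e ∈ L} = ↑(L.toFinset.filter (· ∈ M)) := by
    ext e; simp [and_comm]
  rw [this, Set.ncard_coe_finset, Finset.card_filter, List.sum_toFinset _ hL]
  congr 1

theorem result : ∃ C : List V, IsCycle C ∧ (∃ c d, c ≠ d ∧ Inside C c ∧ Inside C d) ∧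
    (∃ M, IsPM C M) ∧ ∃ h, Inside C h ∧
      ∀ M, IsPM C M → {e | e ∈ M ∧ e ∈ hexEdges h}.ncard = 3 := by
  refine ⟨C0, ⟨by decide, by decide +kernel, ?_⟩, ⟨(0, 0), (1, 0), by decide,
    inside_of _ (by decide), inside_of _ (by decide)⟩, ⟨{e | e ∈ M0}, ?_, ?_⟩, (0, 0),
    inside_of _ (by decide), fun M hM => ?_⟩
  · unfold Adj Adj0; decide +kernel
  · intro e he
    exact (bedge e).2 ((by decide +kernel : ∀ e ∈ M0, e ∈ EB) e he)
  · intro v hv
    obtain ⟨e, he, h1, h2⟩ := (by decide +kernel :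
      ∀ v ∈ VB, ∃ e ∈ M0, v ∈ e ∧ ∀ f ∈ M0, v ∈ f → f = e) v ((bvert v).1 hv)
    exact ⟨e, ⟨he, h1⟩, fun f hf => h2 f hf.1 hf.2⟩
  · have h1 : ∀ e, e ∈ hexEdges (0, 0) ↔ e ∈ L6 := fun e =>
      ⟨(by decide +kernel : ∀ e ∈ hexEdges (0, 0), e ∈ L6) e,
        (by decide +kernel : ∀ e ∈ L6, e ∈ hexEdges (0, 0)) e⟩
    simp only [h1]
    rw [card_eq M L6 (by decide +kernel), sum6 M hM]

end Pool.Agent.Results.MP_64a46a_co.Yes
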